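import Mathlib
import Pool.Agent.H27Mahler.SparseFinal

/-!
# A Lehmer type lower bound for polynomials with one sparse variable

A nonzero integer polynomial in any number of variables, each nonconstant irreducible factor of
which of measure different from one contains some variable with at least two and at most `m`
different exponents, has Mahler measure one or at least `2 ^ (1 / (m 2^(m+2) + 1))`.
-/

open MeasureTheory Pool.Agent.H27Mahler

namespace Pool.Agent.SpCl.Kept.SparseLehmer

/-- Mahler measure of an integer polynomial in `k` variables. -/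
noncomputable def measureOf {k : ℕ} (F : MvPolynomial (Fin k) ℤ) : ℝ :=
  Real.exp (∫ t in Set.Icc (0 : Fin k → ℝ) 1,
    Real.log ‖MvPolynomial.eval
      (fun j : Fin k => Complex.exp (2 * (Real.pi : ℂ) * Complex.I * ((t j : ℝ) : ℂ)))
      (MvPolynomial.map (Int.castRingHom ℂ) F)‖)

/-- The set of exponents with which the variable `y` occurs in the monomials of `P`
(the exponent `0` included, when some monomial does not contain `y`). -/
noncomputable def exponentsOf {k : ℕ} (y : Fin k) (P : MvPolynomial (Fin k) ℤ) : Finset ℕ :=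
  P.support.image (fun s => s y)

theorem result (m k : ℕ) (F : MvPolynomial (Fin k) ℤ) (hF : F ≠ 0)
    (hsp : ∀ P : MvPolynomial (Fin k) ℤ, Irreducible P → P ∣ F → P.totalDegree ≠ 0 →
      measureOf P ≠ 1 → ∃ y : Fin k, 2 ≤ (exponentsOf y P).card ∧ (exponentsOf y P).card ≤ m) :
    measureOf F = 1 ∨ (2 : ℝ) ^ ((1 : ℝ) / (m * 2 ^ (m + 2) + 1)) ≤ measureOf F := by
  classical
  have hmm : ∀ {k : ℕ} (F : MvPolynomial (Fin k) ℤ), measureOf F = Real.exp (mm F) := by
    intro k F
    rw [measureOf]
    congr 1
    exact integral_cube_eq_mm F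
  have hlog2 : 0 < Real.log 2 := Real.log_pos (by norm_num)
  set c : ℝ := Real.log 2 / (m * 2 ^ (m + 2) + 1) with hc
  have hcle : c ≤ Real.log 2 := by
    rw [hc]
    apply div_le_self hlog2.le
    have : (0 : ℝ) ≤ m * 2 ^ (m + 2) := by positivity
    linarith
  -- one factor
  have hone : ∀ P : MvPolynomial (Fin k) ℤ, Irreducible P → P ∣ F → mm P ≠ 0 → c ≤ mm P := by
    intro P hP hPF h0
    by_cases hdeg : P.totalDegree = 0
    · rw [MvPolynomial.totalDegree_eq_zero_iff_eq_C] at hdeg
      set n := MvPolynomial.coeff 0 P with hn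
      have hmP : mm P = Real.log |(n : ℝ)| := by
        rw [hdeg, mm]
        simp [ev]
      refine hcle.trans ?_
      rw [hmP] at h0 ⊢
      have hn0 : n ≠ 0 := by
        intro h; rw [h] at h0; simp at h0
      have hn1 : |n| ≠ 1 := by
        intro h
        apply h0
        have : |(n : ℝ)| = 1 := by exact_mod_cast h
        rw [this, Real.log_one]
      have h1 : 1 ≤ |n| := Int.one_le_abs hn0
      have h2 : (2 : ℤ) ≤ |n| := by omega
      apply Real.log_le_log (by norm_num)
      exact_mod_cast h2
    · have hM : measureOf P ≠ 1 := by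
        rw [hmm]; intro h; exact h0 (Real.exp_eq_one_iff _ |>.mp h)
      obtain ⟨y, h2, hm⟩ := hsp P hP hPF hdeg hM
      have hm0 : 0 < m := by omega
      have hn : m * 2 ^ (m + 1) ≠ 0 := by positivity
      obtain ⟨p, hp, hp1, hp2⟩ := Nat.exists_prime_lt_and_le_two_mul (m * 2 ^ (m + 1)) hn
      have hmR : (0 : ℝ) < m := by exact_mod_cast hm0
      have hpR : ((m * 2 ^ (m + 1) : ℕ) : ℝ) < p := by exact_mod_cast hp1
      have hpR2 : (p : ℝ) ≤ ((2 * (m * 2 ^ (m + 1)) : ℕ) : ℝ) := by exact_mod_cast hp2
      push_cast at hpR hpR2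
      have hpm : Real.log (m * 2 ^ m) + Real.log 2 ≤ Real.log p := by
        rw [← Real.log_mul (by positivity) (by norm_num)]
        apply Real.log_le_log (by positivity)
        have : (m : ℝ) * 2 ^ m * 2 = m * 2 ^ (m + 1) := by ring
        linarith
      refine le_trans ?_ (mm_lower hp hpm hP y h2 hm h0)
      apply div_le_div_of_nonneg_left hlog2.le (by positivity)
      have : (2 : ℝ) * (m * 2 ^ (m + 1)) = m * 2 ^ (m + 2) := by ring
      linarith
  -- all factors
  have hall : mm F = 0 ∨ c ≤ mm F := by
    revert hone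
    revert hF
    refine WfDvdMonoid.induction_on_irreducible (motive := fun F : MvPolynomial (Fin k) ℤ =>
      F ≠ 0 → (∀ P : MvPolynomial (Fin k) ℤ, Irreducible P → P ∣ F → mm P ≠ 0 → c ≤ mm P) →
      mm F = 0 ∨ c ≤ mm F) F ?_ ?_ ?_
    · intro h; exact absurd rfl h
    · intro u hu _ _
      exact Or.inl (mm_unit hu)
    · intro a i ha hi ih _ hH
      have hmul := mm_mul hi.ne_zero ha
      have h1 := mm_nonneg i
      have h2 := mm_nonneg a
      by_cases h0 : mm i = 0
      · rcases ih ha (fun P hP hPa h3 => hH P hP (hPa.mul_left i) h3) with h3 | h3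
        · left; rw [hmul, h0, h3, add_zero]
        · right; rw [hmul]; linarith
      · right
        have h3 := hH i hi (Dvd.intro _ rfl) h0
        rw [hmul]; linarith
  rcases hall with h | h
  · left; rw [hmm, h, Real.exp_zero]
  · right
    rw [hmm, Real.rpow_def_of_pos (by norm_num)]
    apply Real.exp_le_exp.mpr
    rw [← mul_div_assoc, mul_one]
    exact h

end Pool.Agent.SpCl.Kept.SparseLehmer
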